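import Pool.Agent.W670.LL.Stm

set_option autoImplicit false

/-! Project LL, part P3: the derivation `d/dt` on `k(t)`, and the additivity of the invariant
differential of the twisted curve. -/

namespace Pool.Agent.W450.LL

open Pool.Agent.W670.LL WeierstrassCurve

theorem d0 : S_D0 := by
  intro k _
  have hE : Algebra.FormallyEtale (Polynomial k) (RatFunc k) :=
    Algebra.FormallyEtale.of_isLocalization (nonZeroDivisors (Polynomial k))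
  have hB := KaehlerDifferential.isBaseChange_of_formallyEtale k (Polynomial k) (RatFunc k)
  let g : Derivation k (Polynomial k) (RatFunc k) := Polynomial.mkDerivation k (1 : RatFunc k)
  let L := hB.lift g.liftKaehlerDifferential
  refine ⟨L.compDer (KaehlerDifferential.D k (RatFunc k)), ?_⟩
  have h1 : (KaehlerDifferential.D k (RatFunc k)) RatFunc.X =
      KaehlerDifferential.map k k (Polynomial k) (RatFunc k)
        (KaehlerDifferential.D k (Polynomial k) Polynomial.X) := by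
    rw [KaehlerDifferential.map_D, RatFunc.algebraMap_X]
  have h2 : (L.compDer (KaehlerDifferential.D k (RatFunc k))) RatFunc.X =
      L ((KaehlerDifferential.D k (RatFunc k)) RatFunc.X) := rfl
  rw [h2, h1, hB.lift_eq, Derivation.liftKaehlerDifferential_comp_D]
  simp [g]

section
variable {k : Type} [Field k]

theorem lam_ne : lam k ≠ 0 := by
  unfold lam
  intro h
  have h1 : (algebraMap (Polynomial k) (RatFunc k))
      (Polynomial.X ^ 3 + 6 * Polynomial.X ^ 2 - 3 * Polynomial.X) = 0 := by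
    simpa [map_ofNat] using h
  have h2 := (map_eq_zero_iff _ (RatFunc.algebraMap_injective k)).1 h1
  have h3 := congrArg (fun p => Polynomial.coeff p 3) h2
  simp only [Polynomial.coeff_sub, Polynomial.coeff_add, Polynomial.coeff_zero] at h3
  rw [show (6 : Polynomial k) = Polynomial.C 6 from (map_ofNat _ 6).symm,
    show (3 : Polynomial k) = Polynomial.C 3 from (map_ofNat _ 3).symm] at h3
  rw [Polynomial.coeff_C_mul, Polynomial.coeff_C_mul] at h3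
  simp [Polynomial.coeff_X] at h3

theorem nat_ne {n : ℕ} (h : (n : k) ≠ 0) : (n : RatFunc k) ≠ 0 := by
  have : (n : RatFunc k) = algebraMap k (RatFunc k) (n : k) := (map_natCast _ n).symm
  rw [this]
  intro h'
  exact h ((map_eq_zero_iff _ (algebraMap k (RatFunc k)).injective).1 h')

/-- the number `c` attached to a point -/
structure IsC (D : Derivation k (RatFunc k) (RatFunc k)) (X Y c : RatFunc k) : Prop where
  cv : lam k * Y ^ 2 = X ^ 3 + 6 * X ^ 2 - 3 * X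
  dX : D X = c * Y
  dY : 2 * lam k * D Y + D (lam k) * Y = (3 * X ^ 2 + 12 * X - 3) * c

theorem D_nat (D : Derivation k (RatFunc k) (RatFunc k)) (n : ℕ) :
    D (n : RatFunc k) = 0 := by
  have : (n : RatFunc k) = algebraMap k (RatFunc k) (n : k) := (map_natCast _ n).symm
  rw [this]; exact D.map_algebraMap _

theorem D_3 (D : Derivation k (RatFunc k) (RatFunc k)) : D (3 : RatFunc k) = 0 := by
  have := D_nat D 3
  simpa using this

theorem D_6 (D : Derivation k (RatFunc k) (RatFunc k)) : D (6 : RatFunc k) = 0 := by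
  have := D_nat D 6
  simpa using this

/-- differentiate the equation of the curve -/
theorem diff_eq (D : Derivation k (RatFunc k) (RatFunc k)) {X Y : RatFunc k}
    (h : lam k * Y ^ 2 = X ^ 3 + 6 * X ^ 2 - 3 * X) :
    D (lam k) * Y ^ 2 + 2 * lam k * Y * D Y = (3 * X ^ 2 + 12 * X - 3) * D X := by
  have h1 := congrArg D h
  simp only [Derivation.leibniz, map_add, map_sub, Derivation.leibniz_pow, smul_eq_mul,
    D_3, D_6, nsmul_eq_mul] at h1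
  push_cast at h1
  linear_combination h1

theorem fp_ne (h2 : (2 : k) ≠ 0) (h3 : (3 : k) ≠ 0) {X : RatFunc k}
    (h : X ^ 3 + 6 * X ^ 2 - 3 * X = 0) : 3 * X ^ 2 + 12 * X - 3 ≠ 0 := by
  intro h'
  have h2' : (2 : RatFunc k) ≠ 0 := by simpa using nat_ne (k := k) (n := 2) (by simpa using h2)
  have h3' : (3 : RatFunc k) ≠ 0 := by simpa using nat_ne (k := k) (n := 3) (by simpa using h3)
  have e : X * (X ^ 2 + 6 * X - 3) = 0 := by linear_combination h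
  rcases mul_eq_zero.1 e with hx | hx
  · apply h3'; rw [hx] at h'; linear_combination -h'
  · have e1 : X * (2 * X + 6) = 0 := by linear_combination h' - hx
    rcases mul_eq_zero.1 e1 with hx' | hx'
    · apply h3'; rw [hx'] at hx; linear_combination -hx
    · have h4 : (2 : RatFunc k) * 2 * 2 * 2 * 3 = 0 := by
        linear_combination (-4) * hx + (2 * X + 6) * hx'
      simp [h2', h3'] at h4

/-- the value used in the statement has the property `IsC` -/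
theorem isC_of (h2 : (2 : k) ≠ 0) (h3 : (3 : k) ≠ 0) (D : Derivation k (RatFunc k) (RatFunc k))
    {X Y : RatFunc k} (h : lam k * Y ^ 2 = X ^ 3 + 6 * X ^ 2 - 3 * X) : IsC D X Y (D X / Y) := by
  have hd := diff_eq D h
  by_cases hY : Y = 0
  · subst hY
    have h0 : X ^ 3 + 6 * X ^ 2 - 3 * X = 0 := by rw [← h]; ring
    have h1 : D X = 0 := by
      have : (3 * X ^ 2 + 12 * X - 3) * D X = 0 := by rw [← hd]; ring
      exact (mul_eq_zero.1 this).resolve_left (fp_ne h2 h3 h0)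
    exact ⟨h, by simp [h1], by simp [h1]⟩
  · refine ⟨h, (div_mul_cancel₀ _ hY).symm, ?_⟩
    have : Y * (2 * lam k * D Y + D (lam k) * Y) = Y * ((3 * X ^ 2 + 12 * X - 3) * (D X / Y)) := by
      rw [show Y * ((3 * X ^ 2 + 12 * X - 3) * (D X / Y)) =
        (3 * X ^ 2 + 12 * X - 3) * (D X / Y * Y) by ring, div_mul_cancel₀ _ hY, ← hd]
      ring
    exact mul_left_cancel₀ hY this

/-- uniqueness -/
theorem isC_uniq (h2 : (2 : k) ≠ 0) (h3 : (3 : k) ≠ 0)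
    (D : Derivation k (RatFunc k) (RatFunc k)) {X Y c : RatFunc k} (h : IsC D X Y c) :
    D X / Y = c := by
  by_cases hY : Y = 0
  · have h0 := h.dY
    have h1 := h.cv
    rw [hY] at h0 h1 ⊢
    have h4 : X ^ 3 + 6 * X ^ 2 - 3 * X = 0 := by rw [← h1]; ring
    have h5 : (3 * X ^ 2 + 12 * X - 3) * c = 0 := by rw [← h0]; simp
    rw [(mul_eq_zero.1 h5).resolve_left (fp_ne h2 h3 h4)]; simp
  · rw [h.dX]; exact mul_div_cancel_right₀ _ hY

/-- the common part of addition and doubling -/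
theorem isC_add (D : Derivation k (RatFunc k) (RatFunc k))
    {X₁ Y₁ c₁ X₂ Y₂ c₂ X₃ Y₃ l : RatFunc k} (i₁ : IsC D X₁ Y₁ c₁) (i₂ : IsC D X₂ Y₂ c₂)
    (hc : lam k * Y₃ ^ 2 = X₃ ^ 3 + 6 * X₃ ^ 2 - 3 * X₃)
    (hX : X₃ = lam k * l ^ 2 - 6 - X₁ - X₂) (hY1 : Y₃ = -(Y₁ + l * (X₃ - X₁)))
    (hY2 : Y₃ = -(Y₂ + l * (X₃ - X₂)))
    (e1 : 2 * lam k * D l + D (lam k) * l = (X₁ - X₃) * c₁ + (X₂ - X₃) * c₂)
    (e2 : 3 * X₁ ^ 2 + 12 * X₁ - 3 - 2 * lam k * l * Y₁ = (X₁ - X₂) * (X₁ - X₃))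
    (e3 : 3 * X₃ ^ 2 + 12 * X₃ - 3 + 2 * lam k * l * Y₃ = (X₃ - X₁) * (X₃ - X₂)) :
    IsC D X₃ Y₃ (c₁ + c₂) := by
  have hDX : D X₃ = D (lam k) * l ^ 2 + 2 * lam k * l * D l - D X₁ - D X₂ := by
    rw [hX]
    simp only [Derivation.leibniz, map_add, map_sub, Derivation.leibniz_pow, smul_eq_mul,
      D_3, D_6, nsmul_eq_mul]
    push_cast; ring
  have hX3 : D X₃ = (c₁ + c₂) * Y₃ := by
    rw [hDX, i₁.dX, i₂.dX]
    linear_combination l * e1 - c₁ * hY1 - c₂ * hY2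
  refine ⟨hc, hX3, ?_⟩
  have hDY : D Y₃ = -(D Y₁ + (D l * (X₃ - X₁) + l * (D X₃ - D X₁))) := by
    conv_lhs => rw [hY1]
    simp only [Derivation.leibniz, map_add, map_sub, map_neg, smul_eq_mul]
    ring
  have h1 := i₁.dY
  have h5 := i₁.dX
  rw [hDY, hX3]
  rw [hY1] at e3 ⊢
  linear_combination (-1 : RatFunc k) * h1 - (X₃ - X₁) * e1 + 2 * lam k * l * h5 - c₁ * e2 +
    (-(c₁ + c₂)) * e3

/-- `f'(X₁) - 2 λ l Y₁ = 0` or the chord case give the third relation -/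
theorem e3_of {X₁ X₂ X₃ Y₁ Y₃ l : RatFunc k} (hX : X₃ = lam k * l ^ 2 - 6 - X₁ - X₂)
    (hY1 : Y₃ = -(Y₁ + l * (X₃ - X₁)))
    (e2 : 3 * X₁ ^ 2 + 12 * X₁ - 3 - 2 * lam k * l * Y₁ = (X₁ - X₂) * (X₁ - X₃)) :
    3 * X₃ ^ 2 + 12 * X₃ - 3 + 2 * lam k * l * Y₃ = (X₃ - X₁) * (X₃ - X₂) := by
  rw [hY1]
  linear_combination e2 + 2 * (X₃ - X₁) * hX

theorem e2_of {X₁ X₂ X₃ Y₁ Y₂ l : RatFunc k} (hne : X₁ ≠ X₂)
    (h1 : lam k * Y₁ ^ 2 = X₁ ^ 3 + 6 * X₁ ^ 2 - 3 * X₁)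
    (h2 : lam k * Y₂ ^ 2 = X₂ ^ 3 + 6 * X₂ ^ 2 - 3 * X₂)
    (hX : X₃ = lam k * l ^ 2 - 6 - X₁ - X₂) (hl : l * (X₁ - X₂) = Y₁ - Y₂) :
    3 * X₁ ^ 2 + 12 * X₁ - 3 - 2 * lam k * l * Y₁ = (X₁ - X₂) * (X₁ - X₃) := by
  have hne' : X₁ - X₂ ≠ 0 := sub_ne_zero.2 hne
  have hst : lam k * l * (Y₁ + Y₂) = X₁ ^ 2 + X₁ * X₂ + X₂ ^ 2 + 6 * (X₁ + X₂) - 3 := by
    apply mul_left_cancel₀ hne'
    linear_combination lam k * (Y₁ + Y₂) * hl + h1 - h2
  rw [hX]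
  linear_combination (-1 : RatFunc k) * hst + lam k * l * hl

theorem e1_of (D : Derivation k (RatFunc k) (RatFunc k)) {X₁ X₂ X₃ Y₁ Y₂ c₁ c₂ l : RatFunc k}
    (i₁ : IsC D X₁ Y₁ c₁) (i₂ : IsC D X₂ Y₂ c₂) (hne : X₁ ≠ X₂)
    (hl : l * (X₁ - X₂) = Y₁ - Y₂)
    (e2 : 3 * X₁ ^ 2 + 12 * X₁ - 3 - 2 * lam k * l * Y₁ = (X₁ - X₂) * (X₁ - X₃))
    (e2' : 3 * X₂ ^ 2 + 12 * X₂ - 3 - 2 * lam k * l * Y₂ = (X₂ - X₁) * (X₂ - X₃)) :
    2 * lam k * D l + D (lam k) * l = (X₁ - X₃) * c₁ + (X₂ - X₃) * c₂ := by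
  have hne' : X₁ - X₂ ≠ 0 := sub_ne_zero.2 hne
  have hd := congrArg D hl
  simp only [Derivation.leibniz, map_sub, smul_eq_mul] at hd
  apply mul_left_cancel₀ hne'
  have a1 := i₁.dX
  have a2 := i₂.dX
  have b1 := i₁.dY
  have b2 := i₂.dY
  linear_combination 2 * lam k * hd + D (lam k) * hl + b1 - b2 - 2 * lam k * l * (a1 - a2) +
    c₁ * e2 - c₂ * e2'

theorem e1_dbl (D : Derivation k (RatFunc k) (RatFunc k)) {X₁ X₃ Y₁ c₁ l : RatFunc k}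
    (i₁ : IsC D X₁ Y₁ c₁) (hY : Y₁ ≠ 0) (hX : X₃ = lam k * l ^ 2 - 6 - X₁ - X₁)
    (hl : l * (2 * lam k * Y₁) = 3 * X₁ ^ 2 + 12 * X₁ - 3) :
    2 * lam k * D l + D (lam k) * l = (X₁ - X₃) * c₁ + (X₁ - X₃) * c₁ := by
  have hd := congrArg D hl
  have D2 : D (2 : RatFunc k) = 0 := by simpa using D_nat D 2
  have D12 : D (12 : RatFunc k) = 0 := by simpa using D_nat D 12
  simp only [Derivation.leibniz, map_add, map_sub, Derivation.leibniz_pow, smul_eq_mul,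
      D_3, D2, D12, nsmul_eq_mul] at hd
  push_cast at hd
  apply mul_left_cancel₀ hY
  have a1 := i₁.dX
  have b1 := i₁.dY
  rw [hX]
  linear_combination hd + (6 * X₁ + 12) * a1 - l * b1 + l * c₁ * hl

end

section
variable {k : Type} [Field k] [DecidableEq (RatFunc k)]

theorem co {x y : RatFunc k} (h : (Cv (6 * lam k) (-3 * lam k ^ 2)).Nonsingular x y) :
    lam k * (y / lam k ^ 2) ^ 2 = (x / lam k) ^ 3 + 6 * (x / lam k) ^ 2 - 3 * (x / lam k) := by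
  have h1 := eqn h
  have h2 := lam_ne (k := k)
  field_simp
  linear_combination h1

theorem der_aux (h2 : (2 : k) ≠ 0) (h3 : (3 : k) ≠ 0) (D : Derivation k (RatFunc k) (RatFunc k))
    {X₁ Y₁ X₂ Y₂ : RatFunc k}
    (h₁ : (Cv (6 * lam k) (-3 * lam k ^ 2)).Nonsingular (lam k * X₁) (lam k ^ 2 * Y₁))
    (h₂ : (Cv (6 * lam k) (-3 * lam k ^ 2)).Nonsingular (lam k * X₂) (lam k ^ 2 * Y₂))
    (hne : X₁ ≠ X₂) :
    ∃ X₃ Y₃ h₃, Affine.Point.some _ _ h₁ + Affine.Point.some _ _ h₂ =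
      Affine.Point.some (lam k * X₃) (lam k ^ 2 * Y₃) h₃ ∧
      D X₃ / Y₃ = D X₁ / Y₁ + D X₂ / Y₂ := by
  have hl0 := lam_ne (k := k)
  have c1 := co h₁
  have c2 := co h₂
  rw [mul_div_cancel_left₀ _ hl0, mul_div_cancel_left₀ _ (pow_ne_zero 2 hl0)] at c1 c2
  have i₁ := isC_of h2 h3 D c1
  have i₂ := isC_of h2 h3 D c2
  have hne' : X₁ - X₂ ≠ 0 := sub_ne_zero.2 hne
  obtain ⟨l, hl⟩ : ∃ l, l * (X₁ - X₂) = Y₁ - Y₂ := ⟨_, div_mul_cancel₀ _ hne'⟩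
  obtain ⟨X₃, hX⟩ : ∃ X₃, X₃ = lam k * l ^ 2 - 6 - X₁ - X₂ := ⟨_, rfl⟩
  obtain ⟨Y₃, hY1⟩ : ∃ Y₃, Y₃ = -(Y₁ + l * (X₃ - X₁)) := ⟨_, rfl⟩
  have hY2 : Y₃ = -(Y₂ + l * (X₃ - X₂)) := by linear_combination hY1 + hl
  obtain ⟨h₃, hs⟩ := add_mk h₁ h₂ (fun h => hne (mul_left_cancel₀ hl0 h)) (lam k * l)
    (lam k * X₃) (lam k ^ 2 * Y₃) (by linear_combination lam k ^ 2 * hl)
    (by rw [hX]; ring) (by rw [hY1]; ring)
  refine ⟨X₃, Y₃, h₃, hs, ?_⟩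
  have c3 := co h₃
  rw [mul_div_cancel_left₀ _ hl0, mul_div_cancel_left₀ _ (pow_ne_zero 2 hl0)] at c3
  have e2 := e2_of hne c1 c2 hX hl
  have e2' : 3 * X₂ ^ 2 + 12 * X₂ - 3 - 2 * lam k * l * Y₂ = (X₂ - X₁) * (X₂ - X₃) :=
    e2_of (Ne.symm hne) c2 c1 (by rw [hX]; ring) (by linear_combination -hl)
  exact isC_uniq h2 h3 D (isC_add D i₁ i₂ c3 hX hY1 hY2 (e1_of D i₁ i₂ hne hl e2 e2') e2
    (e3_of hX hY1 e2))

theorem dbl_aux (h2 : (2 : k) ≠ 0) (h3 : (3 : k) ≠ 0) (D : Derivation k (RatFunc k) (RatFunc k))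
    {X₁ Y₁ : RatFunc k}
    (h₁ : (Cv (6 * lam k) (-3 * lam k ^ 2)).Nonsingular (lam k * X₁) (lam k ^ 2 * Y₁))
    (hY : Y₁ ≠ 0) :
    ∃ X₃ Y₃ h₃, Affine.Point.some _ _ h₁ + Affine.Point.some _ _ h₁ =
      Affine.Point.some (lam k * X₃) (lam k ^ 2 * Y₃) h₃ ∧
      D X₃ / Y₃ = D X₁ / Y₁ + D X₁ / Y₁ := by
  have h2' : (2 : RatFunc k) ≠ 0 := by simpa using nat_ne (k := k) (n := 2) (by simpa using h2)
  have hl0 := lam_ne (k := k)
  have c1 := co h₁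
  rw [mul_div_cancel_left₀ _ hl0, mul_div_cancel_left₀ _ (pow_ne_zero 2 hl0)] at c1
  have i₁ := isC_of h2 h3 D c1
  have hne' : 2 * lam k * Y₁ ≠ 0 := mul_ne_zero (mul_ne_zero h2' hl0) hY
  obtain ⟨l, hl⟩ : ∃ l, l * (2 * lam k * Y₁) = 3 * X₁ ^ 2 + 12 * X₁ - 3 :=
    ⟨_, div_mul_cancel₀ _ hne'⟩
  obtain ⟨X₃, hX⟩ : ∃ X₃, X₃ = lam k * l ^ 2 - 6 - X₁ - X₁ := ⟨_, rfl⟩
  obtain ⟨Y₃, hY1⟩ : ∃ Y₃, Y₃ = -(Y₁ + l * (X₃ - X₁)) := ⟨_, rfl⟩
  obtain ⟨h₃, hs⟩ := dbl_mk h₁ h2' (mul_ne_zero (pow_ne_zero 2 hl0) hY) (lam k * l)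
    (lam k * X₃) (lam k ^ 2 * Y₃) (by linear_combination lam k ^ 2 * hl)
    (by rw [hX]; ring) (by rw [hY1]; ring)
  refine ⟨X₃, Y₃, h₃, hs, ?_⟩
  have c3 := co h₃
  rw [mul_div_cancel_left₀ _ hl0, mul_div_cancel_left₀ _ (pow_ne_zero 2 hl0)] at c3
  have e2 : 3 * X₁ ^ 2 + 12 * X₁ - 3 - 2 * lam k * l * Y₁ = (X₁ - X₁) * (X₁ - X₃) := by
    linear_combination -hl
  exact isC_uniq h2 h3 D (isC_add D i₁ i₁ c3 hX hY1 hY1 (e1_dbl D i₁ hY hX hl) e2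
    (e3_of hX hY1 e2))

end

theorem der : S_DER := by
  intro k _ _ h2 h3 D R₁ R₂
  have hl0 := lam_ne (k := k)
  rcases R₁ with _ | ⟨x₁, y₁, h₁⟩
  · have e0 : (Affine.Point.zero : Gp k) = 0 := rfl
    rw [e0, zero_add]
    have : D (gx (0 : Gp k)) / gy (0 : Gp k) = 0 := by
      show D (0 : RatFunc k) / (0 : RatFunc k) = 0
      simp
    rw [this, zero_add]
  rcases R₂ with _ | ⟨x₂, y₂, h₂⟩
  · have e0 : (Affine.Point.zero : Gp k) = 0 := rfl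
    rw [e0, add_zero]
    have : D (gx (0 : Gp k)) / gy (0 : Gp k) = 0 := by
      show D (0 : RatFunc k) / (0 : RatFunc k) = 0
      simp
    rw [this, add_zero]
  obtain ⟨X₁, rfl⟩ : ∃ X, x₁ = lam k * X := ⟨x₁ / lam k, by field_simp⟩
  obtain ⟨X₂, rfl⟩ : ∃ X, x₂ = lam k * X := ⟨x₂ / lam k, by field_simp⟩
  obtain ⟨Y₁, rfl⟩ : ∃ X, y₁ = lam k ^ 2 * X := ⟨y₁ / lam k ^ 2, by field_simp⟩
  obtain ⟨Y₂, rfl⟩ : ∃ X, y₂ = lam k ^ 2 * X := ⟨y₂ / lam k ^ 2, by field_simp⟩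
  have gxs : ∀ (X Y : RatFunc k) h, gx (Affine.Point.some (lam k * X) (lam k ^ 2 * Y) h : Gp k)
      = X := fun X Y h => by
    show lam k * X / lam k = X
    exact mul_div_cancel_left₀ _ hl0
  have gys : ∀ (X Y : RatFunc k) h, gy (Affine.Point.some (lam k * X) (lam k ^ 2 * Y) h : Gp k)
      = Y := fun X Y h => by
    show lam k ^ 2 * Y / lam k ^ 2 = Y
    exact mul_div_cancel_left₀ _ (pow_ne_zero 2 hl0)
  rw [gxs, gys, gxs, gys]
  by_cases hX : X₁ = X₂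
  · subst hX
    have c1 := co h₁
    have c2 := co h₂
    rw [mul_div_cancel_left₀ _ hl0, mul_div_cancel_left₀ _ (pow_ne_zero 2 hl0)] at c1 c2
    have hq : (Y₁ - Y₂) * (Y₁ + Y₂) = 0 := by
      apply mul_left_cancel₀ hl0
      linear_combination c1 - c2
    have hneg : Y₁ = -Y₂ → D (gx (Affine.Point.some _ _ h₁ + Affine.Point.some _ _ h₂ : Gp k)) /
        gy (Affine.Point.some _ _ h₁ + Affine.Point.some _ _ h₂ : Gp k) =
        D X₁ / Y₁ + D X₁ / Y₂ := by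
      intro hY
      have : (Affine.Point.some _ _ h₁ + Affine.Point.some _ _ h₂ : Gp k) = 0 := by
        apply Affine.Point.add_of_Y_eq rfl
        simp [Affine.negY, hY]
      rw [this]
      show D (0 : RatFunc k) / (0 : RatFunc k) = _
      rw [hY]; simp [div_neg]
    rcases mul_eq_zero.1 hq with hY | hY
    · by_cases h0 : Y₁ = 0
      · have : Y₂ = 0 := by linear_combination h0 - hY
        apply hneg; rw [h0, this]; simp
      · have hY' : Y₁ = Y₂ := sub_eq_zero.1 hY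
        subst hY'
        obtain ⟨X₃, Y₃, h₃, hs, he⟩ := dbl_aux h2 h3 D h₁ h0
        rw [hs, gxs, gys, he]
    · exact hneg (eq_neg_of_add_eq_zero_left hY)
  · obtain ⟨X₃, Y₃, h₃, hs, he⟩ := der_aux h2 h3 D h₁ h₂ hX
    rw [hs, gxs, gys, he]

end Pool.Agent.W450.LL
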